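import Pool.Agent.Lib.MP_69b2e4_nt.LB.Z6
import Pool.Agent.Lib.MP_69b2e4_nt.UH.MA
import Pool.Agent.Lib.MP_69b2e4_nt.UV.M1

/-!
# The exact order of the moments of `ζ'(ρ)`, `0 < lam < 1/2`, and lower bounds for all `lam > 0`

`J lam T` is the sum of `|ζ'(ρ)|^(2 lam)` over the non-trivial zeros with `0 < Im ρ ≤ T`,
`Jline lam T` the same sum over the zeros on the critical line. Unconditionally, for every real
`lam > 0`, `Jline lam T ≥ c T (log T)^((lam+1)^2)`. For `lam < 1/2` this is the exact order of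
`J lam T`, and for `lam ≤ 1` it is the exact order of `Jline lam T`.
-/

set_option autoImplicit false

namespace Pool.Agent.Results.MP_69b2e4_nt.ExactOrder

open Complex

/-- The non-trivial zeros of `ζ` with imaginary part in `(0, T]`. -/
def zeros (T : ℝ) : Set ℂ :=
  {ρ : ℂ | riemannZeta ρ = 0 ∧ 0 < ρ.re ∧ ρ.re < 1 ∧ 0 < ρ.im ∧ ρ.im ≤ T}

/-- The zeros of `ζ` on the critical line with imaginary part in `(0, T]`. -/
def lineZeros (T : ℝ) : Set ℂ :=
  {ρ : ℂ | riemannZeta ρ = 0 ∧ ρ.re = 1 / 2 ∧ 0 < ρ.im ∧ ρ.im ≤ T}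

/-- The discrete moment: the sum of `|ζ'(ρ)|^(2 lam)` over the non-trivial zeros `ρ` with
imaginary part in `(0, T]` (a finite set). -/
noncomputable def J (lam T : ℝ) : ℝ := ∑ᶠ ρ ∈ zeros T, ‖deriv riemannZeta ρ‖ ^ (2 * lam)

/-- The part of the discrete moment that comes from the zeros on the critical line. -/
noncomputable def Jline (lam T : ℝ) : ℝ :=
  ∑ᶠ ρ ∈ lineZeros T, ‖deriv riemannZeta ρ‖ ^ (2 * lam)

theorem zeros_finite (T : ℝ) : (zeros T).Finite := by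
  have hc : IsCompact (Set.Icc (0 : ℝ) 1 ×ℂ Set.Icc (0 : ℝ) T) :=
    isCompact_Icc.reProdIm isCompact_Icc
  refine hc.inter_riemannZetaZeros_finite.subset ?_
  rintro ρ ⟨h0, h1, h2, h3, h4⟩
  exact ⟨⟨⟨h1.le, h2.le⟩, ⟨h3.le, h4⟩⟩, h0⟩

theorem lineZeros_subset (T : ℝ) : lineZeros T ⊆ zeros T := by
  rintro ρ ⟨h0, h1, h3, h4⟩
  refine ⟨h0, ?_, ?_, h3, h4⟩ <;> rw [h1] <;> norm_num

theorem Jline_le_J (lam T : ℝ) : Jline lam T ≤ J lam T := by
  have hf := zeros_finite T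
  have hf' := hf.subset (lineZeros_subset T)
  unfold Jline J
  rw [finsum_mem_eq_finite_toFinset_sum _ hf, finsum_mem_eq_finite_toFinset_sum _ hf']
  refine Finset.sum_le_sum_of_subset_of_nonneg ?_ ?_
  · intro ρ hρ
    rw [Set.Finite.mem_toFinset] at hρ ⊢
    exact lineZeros_subset T hρ
  · intro ρ _ _
    positivity

theorem Jline_eq (lam T : ℝ) : Jline lam T =
    ∑ g ∈ Pool.Agent.LB.ZL T, ‖deriv riemannZeta (1 / 2 + g * I)‖ ^ (2 * lam) := by
  have hf' := (zeros_finite T).subset (lineZeros_subset T)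
  unfold Jline
  rw [finsum_mem_eq_finite_toFinset_sum _ hf']
  symm
  refine Finset.sum_bij (fun (g : ℝ) _ => (1 / 2 : ℂ) + g * I) ?_ ?_ ?_ ?_
  · intro g hg
    rw [Pool.Agent.LB.ZL_mem] at hg
    rw [Set.Finite.mem_toFinset]
    obtain ⟨h3, h1, h2⟩ := hg
    refine ⟨h3, ?_, ?_, ?_⟩
    · simp
    · simpa using h1
    · simpa using h2
  · intro a _ b _ hab
    have := congrArg Complex.im hab
    simpa using this
  · intro ρ hρ
    rw [Set.Finite.mem_toFinset] at hρ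
    obtain ⟨h0, h1, h3, h4⟩ := hρ
    have he : (1 / 2 : ℂ) + (ρ.im : ℂ) * I = ρ := by
      apply Complex.ext
      · simp [h1]
      · simp
    refine ⟨ρ.im, ?_, he⟩
    rw [Pool.Agent.LB.ZL_mem]
    refine ⟨?_, h3, h4⟩
    rw [he]
    exact h0
  · intro g _
    rfl

/-- **Lower bounds of the conjectured order for all positive moments of `ζ'(ρ)`, without any
hypothesis, and the exact order for `lam < 1/2`**: for every real `lam > 0` there is `c > 0` with
`J lam T ≥ Jline lam T ≥ c T (log T)^((lam+1)^2)` for all large `T`; if `lam < 1/2` then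
`J lam T ≤ C T (log T)^((lam+1)^2)` for all `T ≥ 2`; if `lam ≤ 1` then
`Jline lam T ≤ C T (log T)^((lam+1)^2)` for all `T ≥ 2`. -/
theorem result (lam : ℝ) (h0 : 0 < lam) :
    (∃ c T0 : ℝ, 0 < c ∧ ∀ T : ℝ, T0 ≤ T → (zeros T).Finite ∧
      c * (T * Real.log T ^ ((lam + 1) ^ 2)) ≤ Jline lam T ∧ Jline lam T ≤ J lam T) ∧
    (lam < 1 / 2 → ∃ C : ℝ, ∀ T : ℝ, 2 ≤ T →
      J lam T ≤ C * (T * Real.log T ^ ((lam + 1) ^ 2))) ∧
    (lam ≤ 1 → ∃ C : ℝ, ∀ T : ℝ, 2 ≤ T →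
      Jline lam T ≤ C * (T * Real.log T ^ ((lam + 1) ^ 2))) := by
  refine ⟨?_, fun h1 => ?_, fun h1 => ?_⟩
  · obtain ⟨c, T0, hc, H⟩ := Pool.Agent.LB.lower_final lam h0
    refine ⟨c, T0, hc, fun T hT => ⟨zeros_finite T, ?_, Jline_le_J lam T⟩⟩
    rw [Jline_eq]
    exact H T hT
  · obtain ⟨C, hC, H⟩ := Pool.Agent.UV.all_zeros4 lam 0 h0 (by linarith) (by linarith)
    refine ⟨C, fun T hT => ?_⟩
    have hf := zeros_finite T
    unfold J
    rw [finsum_mem_eq_finite_toFinset_sum _ hf]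
    have h := H T hf.toFinset hT fun ρ hρ => by
      rw [Set.Finite.mem_toFinset] at hρ
      exact hρ
    refine le_trans (le_of_eq ?_) h
    refine Finset.sum_congr rfl fun ρ _ => ?_
    rw [zero_mul, Real.rpow_zero, one_mul]
  · obtain ⟨C, hC, H⟩ := Pool.Agent.UH.right_all lam h0 h1
    refine ⟨C, fun T hT => ?_⟩
    have hf' := (zeros_finite T).subset (lineZeros_subset T)
    unfold Jline
    rw [finsum_mem_eq_finite_toFinset_sum _ hf']
    refine H T _ hT fun ρ hρ => ?_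
    rw [Set.Finite.mem_toFinset] at hρ
    obtain ⟨a, b, c, d⟩ := hρ
    refine ⟨by rw [b], a, by rw [b]; norm_num, by rw [b]; norm_num, c, d⟩

end Pool.Agent.Results.MP_69b2e4_nt.ExactOrder
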