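import Pool.Agent.Lib.MP_69b2e4_nt.UH.MA
import Pool.Agent.Lib.MP_69b2e4_nt.UH.MC
import Pool.Agent.Lib.MP_69b2e4_nt.UV.M1

/-!
# Unconditional upper bounds for the moments of `ζ'(ρ)`, `0 < lam ≤ 1`

For `0 < lam ≤ 1` and `A > 0` the sum of `|ζ'(ρ)|^(2 lam)` over the non-trivial zeros with
`0 < Im ρ ≤ T` and `Re ρ ≥ 1/2 - A / log T` is at most `C T (log T)^((lam+1)^2)`, without any
hypothesis; and for `0 < lam < 1` and `kap < 1 - 2 lam` the same holds for the sum over ALL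
non-trivial zeros with the weights `(Im ρ)^(kap |Re ρ - 1/2|)`.
-/

set_option autoImplicit false

namespace Pool.Agent.Results.MP_69b2e4_nt.HalfPlaneMoments

open Complex

/-- The non-trivial zeros of `ζ` with imaginary part in `(0, T]`. -/
def zeros (T : ℝ) : Set ℂ :=
  {ρ : ℂ | riemannZeta ρ = 0 ∧ 0 < ρ.re ∧ ρ.re < 1 ∧ 0 < ρ.im ∧ ρ.im ≤ T}

/-- The zeros which are not more than `A / log T` to the left of the critical line. -/
def halfZeros (A T : ℝ) : Set ℂ := {ρ : ℂ | ρ ∈ zeros T ∧ 1 / 2 - A / Real.log T ≤ ρ.re}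

/-- The discrete moment over these zeros. -/
noncomputable def Jhalf (lam A T : ℝ) : ℝ :=
  ∑ᶠ ρ ∈ halfZeros A T, ‖deriv riemannZeta ρ‖ ^ (2 * lam)

/-- The discrete moment over all non-trivial zeros with weights which are `1` on the critical line
and small (if `kap < 0`) or large (if `kap > 0`) off it. -/
noncomputable def Jweight (lam kap T : ℝ) : ℝ :=
  ∑ᶠ ρ ∈ zeros T, ρ.im ^ (kap * |ρ.re - 1 / 2|) * ‖deriv riemannZeta ρ‖ ^ (2 * lam)

theorem zeros_finite (T : ℝ) : (zeros T).Finite := by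
  have hc : IsCompact (Set.Icc (0 : ℝ) 1 ×ℂ Set.Icc (0 : ℝ) T) :=
    isCompact_Icc.reProdIm isCompact_Icc
  refine hc.inter_riemannZetaZeros_finite.subset ?_
  rintro ρ ⟨h0, h1, h2, h3, h4⟩
  exact ⟨⟨⟨h1.le, h2.le⟩, ⟨h3.le, h4⟩⟩, h0⟩

theorem half (lam A : ℝ) (h0 : 0 < lam) (h1 : lam ≤ 1) (hA : 0 < A) :
    ∃ C : ℝ, ∀ T : ℝ, 3 ≤ T → Jhalf lam A T ≤ C * (T * Real.log T ^ ((lam + 1) ^ 2)) := by
  classical
  obtain ⟨C1, hC1, H1⟩ := Pool.Agent.UH.right_all lam h0 h1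
  obtain ⟨C2, hC2, H2⟩ := Pool.Agent.UH.left_near lam A h0 h1 hA
  refine ⟨C1 + C2, fun T hT => ?_⟩
  have hf : (halfZeros A T).Finite := (zeros_finite T).subset fun ρ hρ => hρ.1
  unfold Jhalf
  rw [finsum_mem_eq_finite_toFinset_sum _ hf,
    ← Finset.sum_filter_add_sum_filter_not hf.toFinset (fun ρ : ℂ => 1 / 2 ≤ ρ.re), add_mul]
  refine add_le_add (H1 T _ (by linarith) fun ρ hρ => ?_) (H2 T _ hT fun ρ hρ => ?_)
  · rw [Finset.mem_filter, Set.Finite.mem_toFinset] at hρ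
    obtain ⟨⟨⟨a, b, c, d, e⟩, g⟩, f⟩ := hρ
    exact ⟨f, a, b, c, d, e⟩
  · rw [Finset.mem_filter, Set.Finite.mem_toFinset] at hρ
    obtain ⟨⟨⟨a, b, c, d, e⟩, g⟩, f⟩ := hρ
    exact ⟨(not_le.1 f).le, by linarith, a, b, d, e⟩

theorem weighted (lam kap : ℝ) (h0 : 0 < lam) (h1 : lam < 1) (hk : kap < 1 - 2 * lam) :
    ∃ C : ℝ, ∀ T : ℝ, 2 ≤ T → Jweight lam kap T ≤ C * (T * Real.log T ^ ((lam + 1) ^ 2)) := by
  classical
  obtain ⟨C, hC, H⟩ := Pool.Agent.UV.all_zeros4 lam kap h0 h1 hk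
  refine ⟨C, fun T hT => ?_⟩
  have hf := zeros_finite T
  unfold Jweight
  rw [finsum_mem_eq_finite_toFinset_sum _ hf]
  refine H T _ hT fun ρ hρ => ?_
  rw [Set.Finite.mem_toFinset] at hρ
  exact hρ

/-- **Upper bounds of the conjectured order for the moments of `ζ'(ρ)`, `0 < lam ≤ 1`, without any
hypothesis**: over the zeros with `Re ρ ≥ 1/2 - A/log T` (every `A > 0`), and, if `lam < 1`, over all
zeros with the weights `(Im ρ)^(kap |Re ρ - 1/2|)` (every `kap < 1 - 2 lam`). -/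
theorem result (lam : ℝ) (h0 : 0 < lam) (h1 : lam ≤ 1) :
    (∀ A : ℝ, 0 < A → ∃ C : ℝ, ∀ T : ℝ, 3 ≤ T →
      (zeros T).Finite ∧ Jhalf lam A T ≤ C * (T * Real.log T ^ ((lam + 1) ^ 2))) ∧
    (lam < 1 → ∀ kap : ℝ, kap < 1 - 2 * lam → ∃ C : ℝ, ∀ T : ℝ, 2 ≤ T →
      Jweight lam kap T ≤ C * (T * Real.log T ^ ((lam + 1) ^ 2))) := by
  refine ⟨fun A hA => ?_, fun h2 kap hk => weighted lam kap h0 h2 hk⟩
  obtain ⟨C, H⟩ := half lam A h0 h1 hA
  exact ⟨C, fun T hT => ⟨zeros_finite T, H T hT⟩⟩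

end Pool.Agent.Results.MP_69b2e4_nt.HalfPlaneMoments
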