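import Pool.Agent.Lib.MP_69b2e4_nt.GH.Final

/-!
# Lower bounds for all negative moments of `ζ'(ρ)`, without the Riemann Hypothesis

`J lam T` is the sum of `|ζ'(ρ)|^(2 lam)` over the non-trivial zeros with `0 < Im ρ ≤ T`,
`Jline lam T` the same sum over the zeros on the critical line. If the zeros on the critical
line up to height `T` are simple then `J lam T ≥ Jline lam T ≥ c T (log T)^((lam+1)^2)`
for every real `lam < 0`.
-/

set_option autoImplicit false

namespace Pool.Agent.Results.MP_69b2e4_nt.NegativeMoments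

open Complex

/-- The non-trivial zeros of `ζ` with imaginary part in `(0, T]`. -/
def zeros (T : ℝ) : Set ℂ :=
  {ρ : ℂ | riemannZeta ρ = 0 ∧ 0 < ρ.re ∧ ρ.re < 1 ∧ 0 < ρ.im ∧ ρ.im ≤ T}

/-- The zeros of `ζ` on the critical line with imaginary part in `(0, T]`. -/
def lineZeros (T : ℝ) : Set ℂ :=
  {ρ : ℂ | riemannZeta ρ = 0 ∧ ρ.re = 1 / 2 ∧ 0 < ρ.im ∧ ρ.im ≤ T}

/-- The discrete moment: the sum of `|ζ'(ρ)|^(2 lam)` over the non-trivial zeros `ρ` with
imaginary part in `(0, T]` (a finite set). -/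
noncomputable def J (lam T : ℝ) : ℝ := ∑ᶠ ρ ∈ zeros T, ‖deriv riemannZeta ρ‖ ^ (2 * lam)

/-- The part of the discrete moment that comes from the zeros on the critical line. -/
noncomputable def Jline (lam T : ℝ) : ℝ :=
  ∑ᶠ ρ ∈ lineZeros T, ‖deriv riemannZeta ρ‖ ^ (2 * lam)

theorem zeros_finite (T : ℝ) : (zeros T).Finite := by
  have hc : IsCompact (Set.Icc (0 : ℝ) 1 ×ℂ Set.Icc (0 : ℝ) T) :=
    isCompact_Icc.reProdIm isCompact_Icc
  refine hc.inter_riemannZetaZeros_finite.subset ?_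
  rintro ρ ⟨h0, h1, h2, h3, h4⟩
  exact ⟨⟨⟨h1.le, h2.le⟩, ⟨h3.le, h4⟩⟩, h0⟩

theorem lineZeros_subset (T : ℝ) : lineZeros T ⊆ zeros T := by
  rintro ρ ⟨h0, h1, h3, h4⟩
  refine ⟨h0, ?_, ?_, h3, h4⟩ <;> rw [h1] <;> norm_num

theorem Jline_le_J (lam T : ℝ) : Jline lam T ≤ J lam T := by
  have hf := zeros_finite T
  have hf' := hf.subset (lineZeros_subset T)
  unfold Jline J
  rw [finsum_mem_eq_finite_toFinset_sum _ hf, finsum_mem_eq_finite_toFinset_sum _ hf']
  refine Finset.sum_le_sum_of_subset_of_nonneg ?_ ?_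
  · intro ρ hρ
    rw [Set.Finite.mem_toFinset] at hρ ⊢
    exact lineZeros_subset T hρ
  · intro ρ _ _
    positivity

theorem Jline_eq (lam T : ℝ) : Jline lam T =
    ∑ g ∈ (Pool.Agent.GH.line_finite T).toFinset,
      ‖deriv riemannZeta (1 / 2 + g * I)‖ ^ (2 * lam) := by
  have hf' := (zeros_finite T).subset (lineZeros_subset T)
  unfold Jline
  rw [finsum_mem_eq_finite_toFinset_sum _ hf']
  symm
  refine Finset.sum_bij (fun (g : ℝ) _ => (1 / 2 : ℂ) + g * I) ?_ ?_ ?_ ?_
  · intro g hg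
    rw [Set.Finite.mem_toFinset] at hg ⊢
    obtain ⟨h1, h2, h3⟩ := hg
    refine ⟨h3, ?_, ?_, ?_⟩
    · simp
    · simpa using h1
    · simpa using h2
  · intro a _ b _ hab
    have := congrArg Complex.im hab
    simpa using this
  · intro ρ hρ
    rw [Set.Finite.mem_toFinset] at hρ
    obtain ⟨h0, h1, h3, h4⟩ := hρ
    have he : (1 / 2 : ℂ) + (ρ.im : ℂ) * I = ρ := by
      apply Complex.ext
      · simp [h1]
      · simp
    refine ⟨ρ.im, ?_, he⟩
    rw [Set.Finite.mem_toFinset]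
    refine ⟨h3, h4, ?_⟩
    rw [he]
    exact h0
  · intro g _
    rfl

/-- **Lower bounds of the conjectured order for all negative moments of `ζ'(ρ)`, assuming only
that the zeros on the critical line are simple.** For every real `lam < 0` there are `c > 0` and
`T0` such that, for every `T ≥ T0` for which the zeros of `ζ` on the critical line with ordinate
in `(0, T]` are simple, already the zeros on the critical line give
`c T (log T)^((lam+1)^2) ≤ Jline lam T ≤ J lam T`. -/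
theorem result (lam : ℝ) (hlam : lam < 0) : ∃ c T0 : ℝ, 0 < c ∧ ∀ T : ℝ, T0 ≤ T →
    (∀ ρ ∈ lineZeros T, deriv riemannZeta ρ ≠ 0) →
    (zeros T).Finite ∧ c * (T * Real.log T ^ ((lam + 1) ^ 2)) ≤ Jline lam T ∧
      Jline lam T ≤ J lam T := by
  obtain ⟨c, T0, hc, H⟩ := Pool.Agent.GH.main (-lam) (by linarith)
  refine ⟨c, T0, hc, fun T hT hs => ⟨zeros_finite T, ?_, Jline_le_J lam T⟩⟩
  have h := H T hT (fun g h0 h1 h2 => hs _ ⟨h2, by simp, by simpa using h0, by simpa using h1⟩)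
  rw [Jline_eq]
  have e1 : (-lam - 1) ^ 2 = (lam + 1) ^ 2 := by ring
  have e2 : -2 * -lam = 2 * lam := by ring
  rw [e1, e2] at h
  rw [← mul_assoc]
  exact h

end Pool.Agent.Results.MP_69b2e4_nt.NegativeMoments
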